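import Mathlib

/-!
# MP_e67678_an : conditional bases indexed by upward-directed families of finite sets

We disprove Q1: there is a Banach space with an `(I, D)`-conditional basis, `D` covering and
directed upwards, for which some coefficient functional is discontinuous.
-/

namespace Pool.Agent.Results.MP_e67678_an.DiscontinuousCoefficient

open Filter Set Topology

set_option linter.unusedSectionVars false

section Definitions

variable {I E : Type*} [NormedAddCommGroup E] [NormedSpace ℝ E]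

/-- Condition (i): the members of `D` cover `I`. -/
def Covers (D : Set (Finset I)) : Prop := ∀ i, ∃ d ∈ D, i ∈ d

/-- Condition (ii'): `D` is directed upwards. -/
def UpDirected (D : Set (Finset I)) : Prop := ∀ d ∈ D, ∀ d' ∈ D, ∃ d'' ∈ D, d ⊆ d'' ∧ d' ⊆ d''

/-- `z = ∑^D α_i x_i`. -/
def DSum (D : Set (Finset I)) (x : I → E) (α : I → ℝ) (z : E) : Prop :=
  ∀ ε : ℝ, 0 < ε → ∃ d ∈ D, ∀ d' ∈ D, d ⊆ d' → ‖z - ∑ i ∈ d', α i • x i‖ < ε

/-- `x` is an `(I, D)`-conditional basis of `E`. -/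
def IsConditionalBasis (D : Set (Finset I)) (x : I → E) : Prop :=
  ∀ z : E, ∃! α : I → ℝ, DSum D x α z

end Definitions

/-! ### The abstract construction -/

section Abstract

open Classical

variable {E : Type*} [NormedAddCommGroup E] [NormedSpace ℝ E]
variable {H N Λ : Type*} [AddCommGroup H] [Module ℚ H]

/-- Finite partial sums. -/
def S (x : H × ℕ × N → E) (f : H × ℕ × N → ℝ) (g : Finset (H × ℕ × N)) : E :=
  ∑ j ∈ g, f j • x j

/-- The coefficient functions. -/
def ca (a : Λ → H →ₗ[ℚ] ℚ) (l : Λ) (j : H × ℕ × N) : ℝ := ((a l j.1 : ℚ) : ℝ)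

theorem S_union (x : H × ℕ × N → E) (f : H × ℕ × N → ℝ) {g g' : Finset (H × ℕ × N)}
    (h : Disjoint g g') : S x f (g ∪ g') = S x f g + S x f g' :=
  Finset.sum_union h

theorem eventually_notMem (h : H) (n : N) (ex : Finset (H × ℕ × N)) :
    ∀ᶠ k in atTop, (h, k, n) ∉ ex := by
  have hinj : Function.Injective (fun k : ℕ => ((h, k, n) : H × ℕ × N)) := by
    intro k k' hk
    simpa using hk
  have hfin : {k : ℕ | (h, k, n) ∈ ex}.Finite :=
    Set.Finite.preimage (hinj.injOn) ex.finite_toSet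
  rw [← Nat.cofinite_eq_atTop]
  exact hfin.eventually_cofinite_notMem

/-- The approximation property. -/
def Ach (x : H × ℕ × N → E) (a : Λ → H →ₗ[ℚ] ℚ) (Λ0 : Finset Λ) (τ : Λ → E) : Prop :=
  ∀ (ex : Finset (H × ℕ × N)) (η : ℝ), 0 < η → ∃ g : Finset (H × ℕ × N), Disjoint g ex ∧
    ∀ l ∈ Λ0, ‖S x (ca a l) g - τ l‖ < η

variable {x : H × ℕ × N → E} {u : N → E} {a : Λ → H →ₗ[ℚ] ℚ} {Λ0 : Finset Λ}

theorem Ach.zero : Ach x a Λ0 (fun _ => 0) := by
  intro ex η hη
  refine ⟨∅, Finset.disjoint_empty_left _, ?_⟩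
  intro l _
  simpa [S] using hη

theorem Ach.add {τ τ' : Λ → E} (h : Ach x a Λ0 τ) (h' : Ach x a Λ0 τ') :
    Ach x a Λ0 (fun l => τ l + τ' l) := by
  intro ex η hη
  obtain ⟨g, hg, hg2⟩ := h ex (η / 2) (by linarith)
  obtain ⟨g', hg', hg2'⟩ := h' (ex ∪ g) (η / 2) (by linarith)
  rw [Finset.disjoint_union_right] at hg'
  refine ⟨g ∪ g', Finset.disjoint_union_left.2 ⟨hg, hg'.1⟩, ?_⟩
  intro l hl
  rw [S_union x _ hg'.2.symm]
  have h1 := hg2 l hl
  have h2 := hg2' l hl
  calc ‖S x (ca a l) g + S x (ca a l) g' - (τ l + τ' l)‖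
      = ‖(S x (ca a l) g - τ l) + (S x (ca a l) g' - τ' l)‖ := by congr 1; abel
    _ ≤ _ := norm_add_le _ _
    _ < η := by linarith

theorem Ach.congr {τ τ' : Λ → E} (h : Ach x a Λ0 τ) (h' : ∀ l ∈ Λ0, τ l = τ' l) :
    Ach x a Λ0 τ' := by
  intro ex η hη
  obtain ⟨g, hg, hg2⟩ := h ex η hη
  refine ⟨g, hg, fun l hl => ?_⟩
  rw [← h' l hl]
  exact hg2 l hl

theorem Ach.closed {τ : Λ → E}
    (h : ∀ η : ℝ, 0 < η → ∃ τ' : Λ → E, Ach x a Λ0 τ' ∧ ∀ l ∈ Λ0, ‖τ' l - τ l‖ < η) :
    Ach x a Λ0 τ := by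
  intro ex η hη
  obtain ⟨τ', h1, h2⟩ := h (η / 2) (by linarith)
  obtain ⟨g, hg, hg2⟩ := h1 ex (η / 2) (by linarith)
  refine ⟨g, hg, fun l hl => ?_⟩
  have h3 := hg2 l hl
  have h4 := h2 l hl
  calc ‖S x (ca a l) g - τ l‖ = ‖(S x (ca a l) g - τ' l) + (τ' l - τ l)‖ := by congr 1; abel
    _ ≤ _ := norm_add_le _ _
    _ < η := by linarith

theorem Ach.base (hlim : ∀ h n, Tendsto (fun k => x (h, k, n)) atTop (𝓝 (u n)))
    {l0 : Λ} {h : H} (hd : ∀ l ∈ Λ0, a l h = if l = l0 then 1 else 0) (q : ℚ) (n : N) :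
    Ach x a Λ0 (fun l => if l = l0 then (q : ℝ) • u n else 0) := by
  intro ex η hη
  have ht : Tendsto (fun k => (q : ℝ) • x (q • h, k, n)) atTop (𝓝 ((q : ℝ) • u n)) :=
    (hlim (q • h) n).const_smul _
  have he := (Metric.tendsto_nhds.1 ht η hη).and (eventually_notMem (q • h) n ex)
  obtain ⟨k, hk1, hk2⟩ := he.exists
  refine ⟨{(q • h, k, n)}, Finset.disjoint_singleton_left.2 hk2, ?_⟩
  intro l hl
  have e : ca a l (q • h, k, n) = if l = l0 then (q : ℝ) else 0 := by
    unfold ca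
    simp only [map_smul, hd l hl, smul_eq_mul]
    split <;> simp
  unfold S
  rw [Finset.sum_singleton, e]
  by_cases hl0 : l = l0
  · simp only [hl0, if_true]
    rw [← dist_eq_norm]
    exact hk1
  · simp only [hl0, if_false]
    simpa using hη

/-- The vectors achievable at the coordinate `l0`. -/
theorem Ach.all (hlim : ∀ h n, Tendsto (fun k => x (h, k, n)) atTop (𝓝 (u n)))
    (hd : ∀ l0 ∈ Λ0, ∃ h : H, ∀ l ∈ Λ0, a l h = if l = l0 then 1 else 0)
    (hdense : Dense (Submodule.span ℝ (Set.range u) : Set E)) (τ : Λ → E) : Ach x a Λ0 τ := by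
  -- single coordinate
  have hone : ∀ l0 ∈ Λ0, ∀ v : E, Ach x a Λ0 (fun l => if l = l0 then v else 0) := by
    intro l0 hl0
    obtain ⟨h, hh⟩ := hd l0 hl0
    have hclosed : ∀ v : E, (∀ η : ℝ, 0 < η → ∃ v' : E,
        Ach x a Λ0 (fun l => if l = l0 then v' else 0) ∧ ‖v' - v‖ < η) →
        Ach x a Λ0 (fun l => if l = l0 then v else 0) := by
      intro v hv
      apply Ach.closed
      intro η hη
      obtain ⟨v', h1, h2⟩ := hv η hη
      refine ⟨_, h1, ?_⟩
      intro l _
      by_cases hl0 : l = l0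
      · simp only [hl0, if_true]
        exact h2
      · simp only [hl0, if_false]
        simpa using hη
    have hadd : ∀ v v' : E, Ach x a Λ0 (fun l => if l = l0 then v else 0) →
        Ach x a Λ0 (fun l => if l = l0 then v' else 0) →
        Ach x a Λ0 (fun l => if l = l0 then v + v' else 0) := by
      intro v v' h1 h2
      refine (h1.add h2).congr ?_
      intro l _
      by_cases hl0 : l = l0 <;> simp [hl0]
    have hreal : ∀ (c : ℝ) (n : N), Ach x a Λ0 (fun l => if l = l0 then c • u n else 0) := by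
      intro c n
      apply hclosed
      intro η hη
      obtain ⟨q, hq1, hq2⟩ := exists_rat_btwn (show c < c + η / (‖u n‖ + 1) by
        have : 0 < η / (‖u n‖ + 1) := by positivity
        linarith)
      refine ⟨(q : ℝ) • u n, Ach.base hlim hh q n, ?_⟩
      rw [← sub_smul, norm_smul, Real.norm_eq_abs, abs_of_pos (by linarith)]
      have h3 : ((q : ℝ) - c) < η / (‖u n‖ + 1) := by linarith
      calc ((q : ℝ) - c) * ‖u n‖ ≤ (η / (‖u n‖ + 1)) * ‖u n‖ := by gcongr
        _ < (η / (‖u n‖ + 1)) * (‖u n‖ + 1) := by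
          have : 0 < η / (‖u n‖ + 1) := by positivity
          nlinarith
        _ = η := by field_simp
    have hspan : ∀ v ∈ Submodule.span ℝ (Set.range u), ∀ c : ℝ,
        Ach x a Λ0 (fun l => if l = l0 then c • v else 0) := by
      intro v hv
      induction hv using Submodule.span_induction with
      | mem v hv =>
        obtain ⟨n, rfl⟩ := hv
        intro c
        exact hreal c n
      | zero =>
        intro c
        refine Ach.zero.congr ?_
        intro l _
        simp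
      | add v v' _ _ h1 h2 =>
        intro c
        have := hadd _ _ (h1 c) (h2 c)
        simpa [smul_add] using this
      | smul c' v _ h1 =>
        intro c
        have := h1 (c * c')
        simpa [mul_smul] using this
    intro v
    apply hclosed
    intro η hη
    obtain ⟨v', hv', hv2⟩ := Metric.dense_iff.1 hdense v η hη
    refine ⟨v', ?_, ?_⟩
    · have := hspan v' hv2 1
      simpa using this
    · rw [← dist_eq_norm]
      exact hv'
  -- sum over the coordinates
  have hsub : ∀ s : Finset Λ, s ⊆ Λ0 → Ach x a Λ0 (fun l => if l ∈ s then τ l else 0) := by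
    intro s
    induction s using Finset.induction_on with
    | empty =>
      intro _
      refine Ach.zero.congr ?_
      intro l _
      simp
    | insert l0 s hl0 ih =>
      intro hs
      have h1 := ih (fun l hl => hs (Finset.mem_insert_of_mem hl))
      have h2 := hone l0 (hs (Finset.mem_insert_self _ _)) (τ l0)
      refine (h1.add h2).congr ?_
      intro l _
      by_cases hl : l = l0
      · subst hl
        simp [hl0]
      · simp [hl]
  refine (hsub Λ0 (Finset.Subset.refl _)).congr ?_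
  intro l hl
  simp [hl]

/-- The exact/approximate pairs. -/
def Q (x : H × ℕ × N → E) (u : N → E) (a : Λ → H →ₗ[ℚ] ℚ) (β : H × ℕ × N → ℝ)
    (τ : Λ → E) (s : E) : Prop :=
  ∀ (ex : Finset (H × ℕ × N)) (η : ℝ), 0 < η → ∃ g : Finset (H × ℕ × N), Disjoint g ex ∧
    (∀ l, ∑ j ∈ g, ca a l j • u j.2.2 = τ l) ∧ ‖S x β g - s‖ < η

variable {β : H × ℕ × N → ℝ}

theorem Q.zero : Q x u a β (fun _ => 0) 0 := by
  intro ex η hη
  refine ⟨∅, Finset.disjoint_empty_left _, ?_, ?_⟩
  · intro l; simp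
  · simpa [S] using hη

theorem Q.add {τ τ' : Λ → E} {s s' : E} (h : Q x u a β τ s) (h' : Q x u a β τ' s') :
    Q x u a β (fun l => τ l + τ' l) (s + s') := by
  intro ex η hη
  obtain ⟨g, hg, hg2, hg3⟩ := h ex (η / 2) (by linarith)
  obtain ⟨g', hg', hg2', hg3'⟩ := h' (ex ∪ g) (η / 2) (by linarith)
  rw [Finset.disjoint_union_right] at hg'
  refine ⟨g ∪ g', Finset.disjoint_union_left.2 ⟨hg, hg'.1⟩, ?_, ?_⟩
  · intro l
    rw [Finset.sum_union hg'.2.symm, hg2, hg2']
  · rw [S_union x _ hg'.2.symm]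
    calc ‖S x β g + S x β g' - (s + s')‖ = ‖(S x β g - s) + (S x β g' - s')‖ := by
          congr 1; abel
      _ ≤ _ := norm_add_le _ _
      _ < η := by linarith

theorem Q.base (hlim : ∀ h n, Tendsto (fun k => x (h, k, n)) atTop (𝓝 (u n)))
    {h : H} {n : N} {L : ℝ} {φ : ℕ → ℕ} (hφ : StrictMono φ)
    (hL : Tendsto (fun k => β (h, φ k, n)) atTop (𝓝 L)) :
    Q x u a β (fun l => ((a l h : ℚ) : ℝ) • u n) (L • u n) := by
  intro ex η hη
  have ht : Tendsto (fun k => β (h, φ k, n) • x (h, φ k, n)) atTop (𝓝 (L • u n)) :=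
    hL.smul ((hlim h n).comp hφ.tendsto_atTop)
  have he := (Metric.tendsto_nhds.1 ht η hη).and
    (hφ.tendsto_atTop.eventually (eventually_notMem h n ex))
  obtain ⟨k, hk1, hk2⟩ := he.exists
  refine ⟨{(h, φ k, n)}, Finset.disjoint_singleton_left.2 hk2, ?_, ?_⟩
  · intro l
    simp [ca]
  · unfold S
    rw [Finset.sum_singleton, ← dist_eq_norm]
    exact hk1

theorem Q.sum (hlim : ∀ h n, Tendsto (fun k => x (h, k, n)) atTop (𝓝 (u n)))
    {L : H → N → ℝ}
    (hL : ∀ h n, ∃ φ : ℕ → ℕ, StrictMono φ ∧ Tendsto (fun k => β (h, φ k, n)) atTop (𝓝 (L h n)))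
    {ι : Type*} (s : Finset ι) (hh : ι → H) (nn : ι → N) :
    Q x u a β (fun l => ∑ i ∈ s, ((a l (hh i) : ℚ) : ℝ) • u (nn i))
      (∑ i ∈ s, L (hh i) (nn i) • u (nn i)) := by
  induction s using Finset.induction_on with
  | empty => simpa using Q.zero
  | insert i s hi ih =>
    obtain ⟨φ, hφ, hφ2⟩ := hL (hh i) (nn i)
    have h1 := (Q.base (a := a) (x := x) (u := u) hlim hφ hφ2).add ih
    simpa only [Finset.sum_insert hi] using h1

/-- The consequence of convergence to zero. -/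
def B1 (x : H × ℕ × N → E) (u : N → E) (a : Λ → H →ₗ[ℚ] ℚ) (β : H × ℕ × N → ℝ) : Prop :=
  ∀ ε : ℝ, 0 < ε → ∃ (Λ1 : Finset Λ) (e0 : Finset (H × ℕ × N)), ∀ g : Finset (H × ℕ × N),
    Disjoint g e0 → (∀ l ∈ Λ1, ∑ j ∈ g, ca a l j • u j.2.2 = 0) → ‖S x β g‖ ≤ ε

theorem exists_L (ψ : E →L[ℝ] ℝ) (hψx : ∀ j, ψ (x j) = 1) (hB1 : B1 x u a β) (h : H) (n : N) :
    ∃ L : ℝ, ∃ φ : ℕ → ℕ, StrictMono φ ∧ Tendsto (fun k => β (h, φ k, n)) atTop (𝓝 L) := by
  obtain ⟨Λ1, e0, he⟩ := hB1 1 one_pos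
  obtain ⟨K, hK⟩ := eventually_atTop.1 ((eventually_notMem h n e0).and
    (eventually_notMem (-h) n e0))
  have hb : ∀ k, K < k → |β (h, k, n)| ≤ ‖ψ‖ + |β (-h, K, n)| := by
    intro k hk
    have hne : ((h, k, n) : H × ℕ × N) ≠ (-h, K, n) := by
      intro hc
      have := congrArg (fun j : H × ℕ × N => j.2.1) hc
      simp only at this
      omega
    have hS := he {(h, k, n), (-h, K, n)} (by
      rw [Finset.disjoint_insert_left, Finset.disjoint_singleton_left]
      exact ⟨(hK k hk.le).1, (hK K le_rfl).2⟩) (by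
      intro l _
      rw [Finset.sum_pair hne]
      simp [ca])
    have h1 : ψ (S x β {(h, k, n), (-h, K, n)}) = β (h, k, n) + β (-h, K, n) := by
      unfold S
      rw [Finset.sum_pair hne]
      simp [hψx]
    have h2 : |β (h, k, n) + β (-h, K, n)| ≤ ‖ψ‖ := by
      rw [← h1, ← Real.norm_eq_abs]
      calc _ ≤ ‖ψ‖ * ‖S x β {(h, k, n), (-h, K, n)}‖ := ψ.le_opNorm _
        _ ≤ ‖ψ‖ * 1 := by gcongr
        _ = ‖ψ‖ := mul_one _
    have h3 := abs_sub_abs_le_abs_sub (β (h, k, n)) (-β (-h, K, n))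
    rw [abs_neg, sub_neg_eq_add] at h3
    linarith
  obtain ⟨L, _, φ, hφ, hL⟩ := tendsto_subseq_of_bounded
    (Metric.isBounded_closedBall (x := (0 : ℝ)) (r := ‖ψ‖ + |β (-h, K, n)|))
    (x := fun k => β (h, K + 1 + k, n)) (by
      intro k
      rw [mem_closedBall_zero_iff, Real.norm_eq_abs]
      exact hb _ (by omega))
  refine ⟨L, fun k => K + 1 + φ k, ?_, hL⟩
  intro i j hij
  have := hφ hij
  simp only
  omega

theorem Q.nsmul {τ : Λ → E} {s : E} (h : Q x u a β τ s) (M : ℕ) :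
    Q x u a β (fun l => (M : ℝ) • τ l) ((M : ℝ) • s) := by
  induction M with
  | zero => simpa using Q.zero
  | succ M ih =>
    have := ih.add h
    simpa [add_smul] using this

theorem Q.eq_zero {Λ1 : Finset Λ} {e0 : Finset (H × ℕ × N)}
    (he : ∀ g : Finset (H × ℕ × N), Disjoint g e0 →
      (∀ l ∈ Λ1, ∑ j ∈ g, ca a l j • u j.2.2 = 0) → ‖S x β g‖ ≤ 1)
    {τ : Λ → E} {s : E} (h : Q x u a β τ s) (hτ : ∀ l ∈ Λ1, τ l = 0) : s = 0 := by
  by_contra hs
  have hpos : 0 < ‖s‖ := norm_pos_iff.2 hs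
  obtain ⟨M, hM⟩ := exists_nat_gt (2 / ‖s‖)
  rw [div_lt_iff₀ hpos] at hM
  obtain ⟨g, hg1, hg2, hg3⟩ := h.nsmul M e0 1 one_pos
  have h1 := he g hg1 (by
    intro l hl
    rw [hg2 l]
    simp [hτ l hl])
  have h2 : ‖(M : ℝ) • s‖ ≤ ‖S x β g‖ + ‖S x β g - (M : ℝ) • s‖ := by
    have := norm_sub_le (S x β g) (S x β g - (M : ℝ) • s)
    simpa using this
  rw [norm_smul, Real.norm_eq_abs, abs_of_nonneg (Nat.cast_nonneg M)] at h2
  linarith

theorem structure_beta [CompleteSpace E] (ψ : E →L[ℝ] ℝ) (hψx : ∀ j, ψ (x j) = 1)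
    (hψu : ∀ n, ψ (u n) = 1)
    (hlim : ∀ h n, Tendsto (fun k => x (h, k, n)) atTop (𝓝 (u n)))
    (hconn : ∀ c : N → ℝ, (∀ (s : Finset N) (m : N → ℤ), ∑ n ∈ s, (m n : ℝ) • u n = 0 →
      ∑ n ∈ s, ((m n : ℝ) * c n) • u n = 0) → ∀ n n', c n = c n')
    (hdual : ∀ Λ0 : Finset Λ, ∀ l0 ∈ Λ0, ∃ h : H, ∀ l ∈ Λ0, a l h = if l = l0 then 1 else 0)
    (hsum : ∀ l, Summable (fun j : H × ℕ × N => |ca a l j| * ‖x j - u j.2.2‖))
    (n0 : N) (hB1 : B1 x u a β) :
    ∃ (Λ1 : Finset Λ) (φ : Λ → ℝ),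
      Summable (fun j => (β j - ∑ l ∈ Λ1, φ l * ca a l j) • x j) := by
  have hex := fun h n => exists_L ψ hψx hB1 h n
  choose L hL using hex
  obtain ⟨Λ1, e0, he⟩ := hB1 1 one_pos
  have hune : ∀ n, u n ≠ 0 := by
    intro n hn
    have := hψu n
    rw [hn] at this
    simp at this
  -- the relations
  have rel : ∀ {ι : Type} (s : Finset ι) (hh : ι → H) (nn : ι → N),
      (∀ l ∈ Λ1, ∑ i ∈ s, ((a l (hh i) : ℚ) : ℝ) • u (nn i) = 0) →
      ∑ i ∈ s, L (hh i) (nn i) • u (nn i) = 0 := by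
    intro ι s hh nn hrel
    exact Q.eq_zero he (Q.sum hlim hL s hh nn) hrel
  have relN : ∀ (s : Finset N) (hh : N → H),
      (∀ l ∈ Λ1, ∑ i ∈ s, ((a l (hh i) : ℚ) : ℝ) • u i = 0) →
      ∑ i ∈ s, L (hh i) i • u i = 0 := by
    intro s hh hrel
    exact Q.eq_zero he (Q.sum hlim hL s hh id) hrel
  have hker : ∀ h n, (∀ l ∈ Λ1, a l h = 0) → L h n = 0 := by
    intro h n hh
    have := rel (Finset.univ : Finset (Fin 1)) (fun _ => h) (fun _ => n) (by
      intro l hl
      simp [hh l hl])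
    simpa [hune n] using this
  have hz : ∀ n, L 0 n = 0 := fun n => hker 0 n (by simp)
  have hneg : ∀ h n, L (-h) n = - L h n := by
    intro h n
    have := rel (Finset.univ : Finset (Fin 2)) ![h, -h] (fun _ => n) (by
      intro l _
      simp [Fin.sum_univ_two])
    simp only [Fin.sum_univ_two, Matrix.cons_val_zero, Matrix.cons_val_one, ← add_smul] at this
    rcases smul_eq_zero.1 this with h1 | h1
    · linarith
    · exact absurd h1 (hune n)
  have hadd : ∀ h h' n, L (h + h') n = L h n + L h' n := by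
    intro h h' n
    have := rel (Finset.univ : Finset (Fin 3)) ![h, h', -(h + h')] (fun _ => n) (by
      intro l _
      simp only [Fin.sum_univ_three, ← add_smul, Matrix.cons_val_zero, Matrix.cons_val_one,
        Matrix.cons_val, map_add, map_neg]
      push_cast
      rw [show ((a l h : ℚ) : ℝ) + ((a l h' : ℚ) : ℝ) + -(((a l h : ℚ) : ℝ) + ((a l h' : ℚ) : ℝ)) = 0
        by ring, zero_smul])
    simp only [Fin.sum_univ_three, ← add_smul, Matrix.cons_val_zero, Matrix.cons_val_one,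
        Matrix.cons_val] at this
    rcases smul_eq_zero.1 this with h1 | h1
    · rw [hneg] at h1
      linarith
    · exact absurd h1 (hune n)
  let Lh : N → H →+ ℝ := fun n =>
    { toFun := fun h => L h n
      map_zero' := hz n
      map_add' := fun h h' => hadd h h' n }
  have hLh : ∀ h n, Lh n h = L h n := fun h n => rfl
  have hconst : ∀ h n n', L h n = L h n' := by
    intro h
    apply hconn (fun n => L h n)
    intro s m hm
    have := relN s (fun n => m n • h) (by
      intro l _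
      have e : ∀ i ∈ s, ((a l (m i • h) : ℚ) : ℝ) • u i = ((a l h : ℚ) : ℝ) • ((m i : ℝ) • u i) := by
        intro i _
        rw [map_zsmul, smul_smul]
        congr 1
        simp [mul_comm]
      rw [Finset.sum_congr rfl e, ← Finset.smul_sum, hm, smul_zero])
    have e2 : ∀ i ∈ s, L (m i • h) i • u i = ((m i : ℝ) * L h i) • u i := by
      intro i _
      rw [← hLh, map_zsmul, hLh]
      simp
    rw [Finset.sum_congr rfl e2] at this
    exact this
  have hdual' := hdual Λ1
  choose! hd hhd using hdual'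
  have hform : ∀ h n, L h n = ∑ l ∈ Λ1, L (hd l) n0 * ((a l h : ℚ) : ℝ) := by
    intro h n
    have hk : L (h - ∑ l ∈ Λ1, (a l h) • hd l) n0 = 0 := by
      apply hker
      intro l hl
      rw [map_sub, map_sum]
      have e : ∀ l' ∈ Λ1, a l (a l' h • hd l') = if l = l' then a l' h else 0 := by
        intro l' hl'
        rw [map_smul, hhd l' hl' l hl]
        split <;> simp
      rw [Finset.sum_congr rfl e, Finset.sum_ite_eq]
      simp [hl]
    rw [hconst h n n0]
    rw [← hLh, map_sub, map_sum] at hk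
    have e : ∀ l ∈ Λ1, Lh n0 (a l h • hd l) = L (hd l) n0 * ((a l h : ℚ) : ℝ) := by
      intro l _
      rw [map_rat_smul, hLh, Rat.smul_def, mul_comm]
    rw [Finset.sum_congr rfl e, hLh] at hk
    linarith
  refine ⟨Λ1, fun l => L (hd l) n0, ?_⟩
  have hcorr : ∀ j : H × ℕ × N, ∑ l ∈ Λ1, L (hd l) n0 * ca a l j = L j.1 j.2.2 := by
    intro j
    exact (hform j.1 j.2.2).symm
  -- the first part is summable by the Cauchy criterion
  have hs1 : Summable (fun j : H × ℕ × N => β j • x j - L j.1 j.2.2 • u j.2.2) := by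
    rw [summable_iff_vanishing_norm]
    intro ε hε
    obtain ⟨Λ2, e2, he2⟩ := hB1 (ε / 2) (by linarith)
    refine ⟨e2, ?_⟩
    intro g hg
    have hq := Q.sum (a := a) hlim hL g (fun j => -j.1) (fun j => j.2.2)
    obtain ⟨g', hg1, hg2, hg3⟩ := hq (e2 ∪ g) (ε / 4) (by linarith)
    rw [Finset.disjoint_union_right] at hg1
    have h1 := he2 (g ∪ g') (Finset.disjoint_union_left.2 ⟨hg, hg1.1⟩) (by
      intro l _
      rw [Finset.sum_union hg1.2.symm, hg2]
      rw [← Finset.sum_add_distrib]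
      apply Finset.sum_eq_zero
      intro j _
      rw [← add_smul]
      simp [ca])
    rw [S_union x _ hg1.2.symm] at h1
    have e3 : ∑ j ∈ g, (β j • x j - L j.1 j.2.2 • u j.2.2) =
        (S x β g + S x β g') - (S x β g' - ∑ i ∈ g, L (-i.1) i.2.2 • u i.2.2) := by
      unfold S
      rw [Finset.sum_sub_distrib]
      have : ∑ i ∈ g, L (-i.1) i.2.2 • u i.2.2 = - ∑ i ∈ g, L i.1 i.2.2 • u i.2.2 := by
        rw [← Finset.sum_neg_distrib]
        apply Finset.sum_congr rfl
        intro i _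
        rw [hneg, neg_smul]
      rw [this]
      abel
    rw [e3]
    calc _ ≤ ‖S x β g + S x β g'‖ + ‖S x β g' - ∑ i ∈ g, L (-i.1) i.2.2 • u i.2.2‖ :=
          norm_sub_le _ _
      _ < ε := by linarith
  have hs2 : Summable (fun j : H × ℕ × N => L j.1 j.2.2 • (x j - u j.2.2)) := by
    apply Summable.of_norm_bounded
      (g := fun j => ∑ l ∈ Λ1, |L (hd l) n0| * (|ca a l j| * ‖x j - u j.2.2‖))
    · exact summable_sum fun l _ => (hsum l).mul_left _
    · intro j
      rw [norm_smul, Real.norm_eq_abs, ← hcorr]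
      calc |∑ l ∈ Λ1, L (hd l) n0 * ca a l j| * ‖x j - u j.2.2‖
          ≤ (∑ l ∈ Λ1, |L (hd l) n0 * ca a l j|) * ‖x j - u j.2.2‖ := by
            gcongr
            exact Finset.abs_sum_le_sum_abs _ _
        _ = _ := by
            rw [Finset.sum_mul]
            apply Finset.sum_congr rfl
            intro l _
            rw [abs_mul]
            ring
  refine (hs1.sub hs2).congr ?_
  intro j
  rw [hcorr, sub_smul, smul_sub]
  abel

/-- Convergence of the partial sums along the filter defined by the `a l` and `y l`. -/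
def FConv (x : H × ℕ × N → E) (a : Λ → H →ₗ[ℚ] ℚ) (y : Λ → E) (β : H × ℕ × N → ℝ) : Prop :=
  ∀ ε : ℝ, 0 < ε → ∃ (Λ0 : Finset Λ) (δ : ℝ) (d0 : Finset (H × ℕ × N)), 0 < δ ∧
    ∀ e : Finset (H × ℕ × N), d0 ⊆ e → (∀ l ∈ Λ0, ‖S x (ca a l) e - y l‖ < δ) → ‖S x β e‖ < ε

variable {y : Λ → E}

theorem approx_e (hA : ∀ (Λ0 : Finset Λ) (τ : Λ → E), Ach x a Λ0 τ) (Λ0 : Finset Λ)
    (d0 : Finset (H × ℕ × N)) (δ : ℝ) (hδ : 0 < δ) :
    ∃ e : Finset (H × ℕ × N), d0 ⊆ e ∧ ∀ l ∈ Λ0, ‖S x (ca a l) e - y l‖ < δ := by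
  obtain ⟨g, hg1, hg2⟩ := hA Λ0 (fun l => y l - S x (ca a l) d0) d0 δ hδ
  refine ⟨d0 ∪ g, Finset.subset_union_left, ?_⟩
  intro l hl
  rw [S_union x _ hg1.symm]
  have := hg2 l hl
  calc ‖S x (ca a l) d0 + S x (ca a l) g - y l‖
      = ‖S x (ca a l) g - (y l - S x (ca a l) d0)‖ := by congr 1; abel
    _ < δ := this

theorem B1_of_FConv (hA : ∀ (Λ0 : Finset Λ) (τ : Λ → E), Ach x a Λ0 τ)
    (hsum : ∀ l, Summable (fun j : H × ℕ × N => |ca a l j| * ‖x j - u j.2.2‖))
    (hβ : FConv x a y β) : B1 x u a β := by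
  intro ε hε
  obtain ⟨Λ0, δ, d0, hδ, h⟩ := hβ (ε / 2) (by linarith)
  obtain ⟨e0, he0, he1⟩ := approx_e (y := y) hA Λ0 d0 (δ / 2) (by linarith)
  have hv : ∀ l, ∃ s : Finset (H × ℕ × N), ∀ t : Finset (H × ℕ × N), Disjoint t s →
      ‖∑ j ∈ t, |ca a l j| * ‖x j - u j.2.2‖‖ < δ / 2 := by
    intro l
    exact summable_iff_vanishing_norm.1 (hsum l) (δ / 2) (by linarith)
  choose sl hsl using hv
  refine ⟨Λ0, e0 ∪ Λ0.biUnion sl, ?_⟩
  intro g hg hrel
  rw [Finset.disjoint_union_right] at hg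
  have h1 : ∀ l ∈ Λ0, ‖S x (ca a l) (e0 ∪ g) - y l‖ < δ := by
    intro l hl
    rw [S_union x _ hg.1.symm]
    have e1 : S x (ca a l) g = ∑ j ∈ g, ca a l j • (x j - u j.2.2) := by
      unfold S
      have : ∑ j ∈ g, ca a l j • (x j - u j.2.2) =
          ∑ j ∈ g, ca a l j • x j - ∑ j ∈ g, ca a l j • u j.2.2 := by
        rw [← Finset.sum_sub_distrib]
        apply Finset.sum_congr rfl
        intro j _
        rw [smul_sub]
      rw [this, hrel l hl, sub_zero]
    have e2 : ‖S x (ca a l) g‖ < δ / 2 := by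
      rw [e1]
      have hdis : Disjoint g (sl l) := by
        refine Finset.disjoint_of_subset_right ?_ hg.2
        exact Finset.subset_biUnion_of_mem sl hl
      have h3 := hsl l g hdis
      calc ‖∑ j ∈ g, ca a l j • (x j - u j.2.2)‖
          ≤ ∑ j ∈ g, ‖ca a l j • (x j - u j.2.2)‖ := norm_sum_le _ _
        _ = ∑ j ∈ g, |ca a l j| * ‖x j - u j.2.2‖ := by
            apply Finset.sum_congr rfl
            intro j _
            rw [norm_smul, Real.norm_eq_abs]
        _ ≤ ‖∑ j ∈ g, |ca a l j| * ‖x j - u j.2.2‖‖ := Real.le_norm_self _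
        _ < δ / 2 := h3
    calc ‖S x (ca a l) e0 + S x (ca a l) g - y l‖
        = ‖(S x (ca a l) e0 - y l) + S x (ca a l) g‖ := by congr 1; abel
      _ ≤ _ := norm_add_le _ _
      _ < δ := by linarith [he1 l hl]
  have h2 := h (e0 ∪ g) (he0.trans Finset.subset_union_left) h1
  have h3 := h e0 he0 (fun l hl => lt_trans (he1 l hl) (by linarith))
  rw [S_union x _ hg.1.symm] at h2
  calc ‖S x β g‖ = ‖(S x β e0 + S x β g) - S x β e0‖ := by congr 1; abel
    _ ≤ _ := norm_sub_le _ _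
    _ ≤ ε := by linarith

theorem zero_of_FConv [CompleteSpace E] (ψ : E →L[ℝ] ℝ) (hψx : ∀ j, ψ (x j) = 1)
    (hψu : ∀ n, ψ (u n) = 1)
    (hlim : ∀ h n, Tendsto (fun k => x (h, k, n)) atTop (𝓝 (u n)))
    (hconn : ∀ c : N → ℝ, (∀ (s : Finset N) (m : N → ℤ), ∑ n ∈ s, (m n : ℝ) • u n = 0 →
      ∑ n ∈ s, ((m n : ℝ) * c n) • u n = 0) → ∀ n n', c n = c n')
    (hdual : ∀ Λ0 : Finset Λ, ∀ l0 ∈ Λ0, ∃ h : H, ∀ l ∈ Λ0, a l h = if l = l0 then 1 else 0)
    (hsum : ∀ l, Summable (fun j : H × ℕ × N => |ca a l j| * ‖x j - u j.2.2‖))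
    (n0 : N) (hA : ∀ (Λ0 : Finset Λ) (τ : Λ → E), Ach x a Λ0 τ)
    (hfree : ∀ (Λ1 : Finset Λ) (φ : Λ → ℝ) (b : H × ℕ × N → ℝ), Summable (fun j => b j • x j) →
      ∑' j, b j • x j + ∑ l ∈ Λ1, φ l • y l = 0 → (∀ l ∈ Λ1, φ l = 0) ∧ ∀ j, b j = 0)
    (hβ : FConv x a y β) : ∀ j, β j = 0 := by
  obtain ⟨Λ1, φ, hs⟩ := structure_beta ψ hψx hψu hlim hconn hdual hsum n0
    (B1_of_FConv hA hsum hβ)
  set b : H × ℕ × N → ℝ := fun j => β j - ∑ l ∈ Λ1, φ l * ca a l j with hb
  have hzero : ∑' j, b j • x j + ∑ l ∈ Λ1, φ l • y l = 0 := by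
    rw [← norm_le_zero_iff]
    apply le_of_forall_pos_le_add
    intro ε hε
    rw [zero_add]
    obtain ⟨Λ0, δ, d0, hδ, h⟩ := hβ (ε / 3) (by linarith)
    obtain ⟨s, hs2⟩ := (Metric.tendsto_atTop.1 hs.hasSum) (ε / 3) (by linarith)
    set R : ℝ := 1 + ∑ l ∈ Λ1, |φ l| with hR
    have hRpos : 0 < R := by
      have : 0 ≤ ∑ l ∈ Λ1, |φ l| := Finset.sum_nonneg fun _ _ => abs_nonneg _
      linarith
    obtain ⟨e, he1, he2⟩ := approx_e (y := y) hA (Λ0 ∪ Λ1) (d0 ∪ s) (min δ (ε / 3 / R))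
      (lt_min hδ (by positivity))
    have h1 := h e (Finset.subset_union_left.trans he1) (fun l hl =>
      lt_of_lt_of_le (he2 l (Finset.mem_union_left _ hl)) (min_le_left _ _))
    have h2 := hs2 e (Finset.subset_union_right.trans he1)
    rw [dist_eq_norm] at h2
    have h3 : ‖∑ l ∈ Λ1, φ l • (S x (ca a l) e - y l)‖ ≤ ε / 3 := by
      calc ‖∑ l ∈ Λ1, φ l • (S x (ca a l) e - y l)‖
          ≤ ∑ l ∈ Λ1, ‖φ l • (S x (ca a l) e - y l)‖ := norm_sum_le _ _
        _ ≤ ∑ l ∈ Λ1, |φ l| * (ε / 3 / R) := by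
            apply Finset.sum_le_sum
            intro l hl
            rw [norm_smul, Real.norm_eq_abs]
            gcongr
            exact (lt_of_lt_of_le (he2 l (Finset.mem_union_right _ hl)) (min_le_right _ _)).le
        _ = (∑ l ∈ Λ1, |φ l|) * (ε / 3 / R) := by rw [Finset.sum_mul]
        _ ≤ R * (ε / 3 / R) := by
            gcongr
            linarith
        _ = ε / 3 := by field_simp
    have h4 : S x β e = ∑ j ∈ e, b j • x j + ∑ l ∈ Λ1, φ l • S x (ca a l) e := by
      unfold S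
      simp only [Finset.smul_sum]
      rw [Finset.sum_comm, ← Finset.sum_add_distrib]
      apply Finset.sum_congr rfl
      intro j _
      simp only [smul_smul]
      rw [← Finset.sum_smul, ← add_smul, hb]
      congr 1
      ring
    have h5 : ∑' j, b j • x j + ∑ l ∈ Λ1, φ l • y l =
        S x β e - (∑ j ∈ e, b j • x j - ∑' j, b j • x j) -
          ∑ l ∈ Λ1, φ l • (S x (ca a l) e - y l) := by
      rw [h4]
      simp only [smul_sub, Finset.sum_sub_distrib]
      abel
    rw [h5]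
    calc _ ≤ ‖S x β e - (∑ j ∈ e, b j • x j - ∑' j, b j • x j)‖ +
          ‖∑ l ∈ Λ1, φ l • (S x (ca a l) e - y l)‖ := norm_sub_le _ _
      _ ≤ (‖S x β e‖ + ‖∑ j ∈ e, b j • x j - ∑' j, b j • x j‖) +
          ‖∑ l ∈ Λ1, φ l • (S x (ca a l) e - y l)‖ := by
          gcongr
          exact norm_sub_le _ _
      _ ≤ ε := by linarith
  obtain ⟨h1, h2⟩ := hfree Λ1 φ b hs hzero
  intro j
  have h3 := h2 j
  rw [hb] at h3
  simp only at h3
  have h4 : ∑ l ∈ Λ1, φ l * ca a l j = 0 := by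
    apply Finset.sum_eq_zero
    intro l hl
    rw [h1 l hl, zero_mul]
  linarith

/-- The second factor of the final space. -/
abbrev Bsp (Λ : Type*) := lp (fun _ : Λ × ℕ => ℝ) 2

/-- The upward directed family. -/
def DD (x : H × ℕ × N → E) (a : Λ → H →ₗ[ℚ] ℚ) (y : Λ → E) :
    Set (Finset ((H × ℕ × N) ⊕ (Λ × ℕ))) :=
  {d | ∀ l m, Sum.inr (l, m) ∈ d → ‖S x (ca a l) d.toLeft - y l‖ < 1 / ((m : ℝ) + 1)}

/-- The basis vectors. -/
noncomputable def xt (x : H × ℕ × N → E) : (H × ℕ × N) ⊕ (Λ × ℕ) → E × Bsp Λ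
  | Sum.inl j => (x j, 0)
  | Sum.inr c => (0, lp.single 2 c (1 : ℝ))

theorem DD_extend (hA : ∀ (Λ0 : Finset Λ) (τ : Λ → E), Ach x a Λ0 τ)
    (t : Finset ((H × ℕ × N) ⊕ (Λ × ℕ))) : ∃ d ∈ DD x a y, t ⊆ d := by
  obtain ⟨M, hM⟩ : ∃ M : ℕ, ∀ c ∈ t.toRight, c.2 ≤ M :=
    ⟨t.toRight.sup (fun c => c.2), fun c hc => Finset.le_sup (f := fun c : Λ × ℕ => c.2) hc⟩
  obtain ⟨e, he1, he2⟩ := approx_e (y := y) hA (t.toRight.image Prod.fst) t.toLeft
    (1 / ((M : ℝ) + 1)) (by positivity)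
  refine ⟨e.disjSum t.toRight, ?_, ?_⟩
  · intro l m hlm
    rw [Finset.inr_mem_disjSum] at hlm
    rw [Finset.toLeft_disjSum]
    have h1 := he2 l (Finset.mem_image.2 ⟨(l, m), hlm, rfl⟩)
    have h2 : (m : ℝ) ≤ M := by exact_mod_cast hM _ hlm
    refine lt_of_lt_of_le h1 ?_
    exact one_div_le_one_div_of_le (by positivity) (by linarith)
  · rw [Finset.subset_disjSum]
    exact ⟨he1, Finset.Subset.refl _⟩

theorem DD_covers (hA : ∀ (Λ0 : Finset Λ) (τ : Λ → E), Ach x a Λ0 τ) : Covers (DD x a y) := by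
  intro i
  obtain ⟨d, hd, hd2⟩ := DD_extend (y := y) hA {i}
  exact ⟨d, hd, hd2 (Finset.mem_singleton_self i)⟩

theorem DD_directed (hA : ∀ (Λ0 : Finset Λ) (τ : Λ → E), Ach x a Λ0 τ) :
    UpDirected (DD x a y) := by
  intro d _ d' _
  obtain ⟨d'', h1, h2⟩ := DD_extend (y := y) hA (d ∪ d')
  exact ⟨d'', h1, Finset.subset_union_left.trans h2, Finset.subset_union_right.trans h2⟩

section DSumLemmas

variable {I F : Type*} [NormedAddCommGroup F] [NormedSpace ℝ F] {D : Set (Finset I)} {X : I → F}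

theorem DSum.add (hD : UpDirected D) {α α' : I → ℝ} {z z' : F} (h : DSum D X α z)
    (h' : DSum D X α' z') : DSum D X (fun i => α i + α' i) (z + z') := by
  intro ε hε
  obtain ⟨d, hd, h1⟩ := h (ε / 2) (by linarith)
  obtain ⟨d', hd', h1'⟩ := h' (ε / 2) (by linarith)
  obtain ⟨d'', hd'', h2, h3⟩ := hD d hd d' hd'
  refine ⟨d'', hd'', ?_⟩
  intro e he hde
  have e1 := h1 e he (h2.trans hde)
  have e2 := h1' e he (h3.trans hde)
  simp only [add_smul, Finset.sum_add_distrib]
  calc ‖z + z' - (∑ i ∈ e, α i • X i + ∑ i ∈ e, α' i • X i)‖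
      = ‖(z - ∑ i ∈ e, α i • X i) + (z' - ∑ i ∈ e, α' i • X i)‖ := by congr 1; abel
    _ ≤ _ := norm_add_le _ _
    _ < ε := by linarith

theorem DSum.smul (c : ℝ) {α : I → ℝ} {z : F} (h : DSum D X α z) :
    DSum D X (fun i => c * α i) (c • z) := by
  intro ε hε
  obtain ⟨d, hd, h1⟩ := h (ε / (|c| + 1)) (by positivity)
  refine ⟨d, hd, ?_⟩
  intro e he hde
  have e1 := h1 e he hde
  have e2 : c • z - ∑ i ∈ e, (c * α i) • X i = c • (z - ∑ i ∈ e, α i • X i) := by
    rw [smul_sub, Finset.smul_sum]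
    congr 1
    apply Finset.sum_congr rfl
    intro i _
    rw [mul_smul]
  rw [e2, norm_smul, Real.norm_eq_abs]
  calc |c| * ‖z - ∑ i ∈ e, α i • X i‖ ≤ |c| * (ε / (|c| + 1)) := by gcongr
    _ < (|c| + 1) * (ε / (|c| + 1)) := by
        have : 0 < ε / (|c| + 1) := by positivity
        nlinarith
    _ = ε := by field_simp

theorem DSum.zero (hne : D.Nonempty) : DSum D X (fun _ => 0) 0 := by
  intro ε hε
  obtain ⟨d, hd⟩ := hne
  refine ⟨d, hd, ?_⟩
  intro e _ _
  simpa using hε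

theorem DSum.sum (hne : D.Nonempty) (hD : UpDirected D) {ι : Type*} (s : Finset ι)
    {α : ι → I → ℝ} {z : ι → F} (h : ∀ i, DSum D X (α i) (z i)) (φ : ι → ℝ) :
    DSum D X (fun i => ∑ k ∈ s, φ k * α k i) (∑ k ∈ s, φ k • z k) := by
  induction s using Finset.induction_on with
  | empty => simpa using DSum.zero hne
  | insert k s hk ih =>
    have := ((h k).smul (φ k)).add hD ih
    simpa only [Finset.sum_insert hk] using this

theorem DSum.of_hasSum (hext : ∀ t : Finset I, ∃ d ∈ D, t ⊆ d) {α : I → ℝ} {z : F}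
    (h : HasSum (fun i => α i • X i) z) : DSum D X α z := by
  intro ε hε
  obtain ⟨s, hs⟩ := (Metric.tendsto_atTop.1 h) ε hε
  obtain ⟨d, hd, hsd⟩ := hext s
  refine ⟨d, hd, ?_⟩
  intro e _ hde
  have := hs e (hsd.trans hde)
  rw [dist_eq_norm] at this
  rwa [norm_sub_rev]

end DSumLemmas

theorem DSum_ca (hA : ∀ (Λ0 : Finset Λ) (τ : Λ → E), Ach x a Λ0 τ) (l : Λ) :
    DSum (DD x a y) (xt x) (Sum.elim (ca a l) (fun _ => 0)) (y l, (0 : Bsp Λ)) := by
  intro ε hε
  obtain ⟨m, hm⟩ := exists_nat_one_div_lt hε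
  obtain ⟨d, hd, hd2⟩ := DD_extend (y := y) hA {Sum.inr (l, m)}
  refine ⟨d, hd, ?_⟩
  intro e he hde
  have hmem : Sum.inr (l, m) ∈ e := hde (hd2 (Finset.mem_singleton_self _))
  have h1 := he l m hmem
  rw [Finset.sum_sum_eq_sum_toLeft_add_sum_toRight]
  simp only [Sum.elim_inl, Sum.elim_inr, zero_smul, Finset.sum_const_zero, add_zero]
  have e1 : ∑ j ∈ e.toLeft, ca a l j • (xt x (Sum.inl j) : E × Bsp Λ) =
      (S x (ca a l) e.toLeft, 0) := by
    unfold S
    rw [Prod.ext_iff]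
    simp [xt, Prod.fst_sum, Prod.snd_sum]
  rw [e1, Prod.mk_sub_mk, sub_zero, Prod.norm_mk, norm_zero, max_lt_iff]
  refine ⟨?_, hε⟩
  rw [norm_sub_rev]
  exact h1.trans hm

theorem DSum_zero (hA : ∀ (Λ0 : Finset Λ) (τ : Λ → E), Ach x a Λ0 τ)
    (hz : ∀ β : H × ℕ × N → ℝ, FConv x a y β → ∀ j, β j = 0)
    {α : (H × ℕ × N) ⊕ (Λ × ℕ) → ℝ} (h : DSum (DD x a y) (xt x) α (0 : E × Bsp Λ)) :
    ∀ i, α i = 0 := by
  have hfst : ∀ e : Finset ((H × ℕ × N) ⊕ (Λ × ℕ)),
      (∑ i ∈ e, α i • (xt x i : E × Bsp Λ)).1 = S x (fun j => α (Sum.inl j)) e.toLeft := by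
    intro e
    rw [Finset.sum_sum_eq_sum_toLeft_add_sum_toRight]
    unfold S
    simp [xt, Prod.fst_sum]
  have hsnd : ∀ e : Finset ((H × ℕ × N) ⊕ (Λ × ℕ)),
      (∑ i ∈ e, α i • (xt x i : E × Bsp Λ)).2 =
        ∑ c ∈ e.toRight, α (Sum.inr c) • lp.single 2 c (1 : ℝ) := by
    intro e
    rw [Finset.sum_sum_eq_sum_toLeft_add_sum_toRight]
    simp [xt, Prod.snd_sum]
  intro i
  match i with
  | Sum.inl j =>
    apply hz (fun j => α (Sum.inl j))
    intro ε hε
    obtain ⟨d, hd, hd2⟩ := h ε hε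
    obtain ⟨M, hM⟩ : ∃ M : ℕ, ∀ c ∈ d.toRight, c.2 ≤ M :=
      ⟨d.toRight.sup (fun c => c.2), fun c hc => Finset.le_sup (f := fun c : Λ × ℕ => c.2) hc⟩
    refine ⟨d.toRight.image Prod.fst, 1 / ((M : ℝ) + 1), d.toLeft, by positivity, ?_⟩
    intro e he1 he2
    have hmem : e.disjSum d.toRight ∈ DD x a y := by
      intro l m hlm
      rw [Finset.inr_mem_disjSum] at hlm
      rw [Finset.toLeft_disjSum]
      have h1 := he2 l (Finset.mem_image.2 ⟨(l, m), hlm, rfl⟩)
      have h2 : (m : ℝ) ≤ M := by exact_mod_cast hM _ hlm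
      refine lt_of_lt_of_le h1 ?_
      exact one_div_le_one_div_of_le (by positivity) (by linarith)
    have h3 := hd2 _ hmem (by
      rw [Finset.subset_disjSum]
      exact ⟨he1, Finset.Subset.refl _⟩)
    rw [zero_sub, norm_neg] at h3
    have h4 := (norm_fst_le (∑ i ∈ e.disjSum d.toRight, α i • (xt x i : E × Bsp Λ))).trans_lt h3
    rwa [hfst, Finset.toLeft_disjSum] at h4
  | Sum.inr c =>
    by_contra hne
    obtain ⟨d, hd, hd2⟩ := h |α (Sum.inr c)| (abs_pos.2 hne)
    obtain ⟨e, he, he2⟩ := DD_extend (y := y) hA (d ∪ {Sum.inr c})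
    have hmem : Sum.inr c ∈ e :=
      he2 (Finset.mem_union_right _ (Finset.mem_singleton_self _))
    have h3 := hd2 e he (Finset.subset_union_left.trans he2)
    rw [zero_sub, norm_neg] at h3
    have h4 := (norm_snd_le (∑ i ∈ e, α i • (xt x i : E × Bsp Λ))).trans_lt h3
    rw [hsnd] at h4
    have h5 := lp.norm_apply_le_norm (p := 2) (by norm_num)
      (∑ c ∈ e.toRight, α (Sum.inr c) • lp.single 2 c (1 : ℝ) : Bsp Λ) c
    have h6 : (∑ c ∈ e.toRight, α (Sum.inr c) • lp.single 2 c (1 : ℝ) : Bsp Λ) c =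
        α (Sum.inr c) := by
      rw [lp.coeFn_sum, Finset.sum_apply, Finset.sum_eq_single c]
      · simp
      · intro c' _ hc'
        simp [Ne.symm hc']
      · intro hc
        exact absurd (Finset.mem_toRight.2 hmem) hc
    rw [h6, Real.norm_eq_abs] at h5
    linarith

theorem exists_DSum (hA : ∀ (Λ0 : Finset Λ) (τ : Λ → E), Ach x a Λ0 τ)
    (hspan : ∀ z : E, ∃ (b : H × ℕ × N → ℝ) (Λ1 : Finset Λ) (φ : Λ → ℝ),
      Summable (fun j => b j • x j) ∧ z = ∑' j, b j • x j + ∑ l ∈ Λ1, φ l • y l)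
    (z : E × Bsp Λ) : ∃ α, DSum (DD x a y) (xt x) α z := by
  obtain ⟨b, Λ1, φ, hs, hz⟩ := hspan z.1
  have hne : (DD x a y).Nonempty := by
    obtain ⟨d, hd, _⟩ := DD_extend (y := y) hA ∅
    exact ⟨d, hd⟩
  have h1 : DSum (DD x a y) (xt x) (Sum.elim b z.2) (∑' j, b j • x j, z.2) := by
    apply DSum.of_hasSum (DD_extend (y := y) hA)
    have e1 : HasSum ((fun i => Sum.elim b z.2 i • (xt x i : E × Bsp Λ)) ∘ Sum.inl)
        (∑' j, b j • x j, 0) := by
      have := hs.hasSum.prodMk (hasSum_zero (α := Bsp Λ) (β := H × ℕ × N))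
      convert this using 1
      funext j
      simp [xt]
    have e2 : HasSum ((fun i => Sum.elim b z.2 i • (xt x i : E × Bsp Λ)) ∘ Sum.inr)
        (0, z.2) := by
      have := (hasSum_zero (α := E) (β := Λ × ℕ)).prodMk (lp.hasSum_single (by norm_num) z.2)
      convert this using 1
      funext c
      simp only [Function.comp_apply, Sum.elim_inr, xt, Prod.smul_mk, smul_zero]
      congr 1
      rw [← lp.single_smul]
      simp
    have := e1.sum e2
    simpa using this
  have h2 := DSum.sum hne (DD_directed (y := y) hA) Λ1 (fun l => DSum_ca (y := y) hA l) φ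
  have h3 := h1.add (DD_directed (y := y) hA) h2
  have h4 : z = (∑' j, b j • x j, z.2) + ∑ k ∈ Λ1, φ k • (y k, (0 : Bsp Λ)) := by
    rw [Prod.ext_iff]
    constructor
    · simp only [Prod.fst_add, Prod.fst_sum, Prod.smul_fst]
      exact hz
    · simp [Prod.snd_sum]
  rw [← h4] at h3
  exact ⟨_, h3⟩

theorem abstract_main [CompleteSpace E] (ψ : E →L[ℝ] ℝ) (hψx : ∀ j, ψ (x j) = 1)
    (hψu : ∀ n, ψ (u n) = 1)
    (hlim : ∀ h n, Tendsto (fun k => x (h, k, n)) atTop (𝓝 (u n)))
    (hconn : ∀ c : N → ℝ, (∀ (s : Finset N) (m : N → ℤ), ∑ n ∈ s, (m n : ℝ) • u n = 0 →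
      ∑ n ∈ s, ((m n : ℝ) * c n) • u n = 0) → ∀ n n', c n = c n')
    (hdual : ∀ Λ0 : Finset Λ, ∀ l0 ∈ Λ0, ∃ h : H, ∀ l ∈ Λ0, a l h = if l = l0 then 1 else 0)
    (hsum : ∀ l, Summable (fun j : H × ℕ × N => |ca a l j| * ‖x j - u j.2.2‖))
    (hdense : Dense (Submodule.span ℝ (Set.range u) : Set E)) (n0 : N)
    (hfree : ∀ (Λ1 : Finset Λ) (φ : Λ → ℝ) (b : H × ℕ × N → ℝ), Summable (fun j => b j • x j) →
      ∑' j, b j • x j + ∑ l ∈ Λ1, φ l • y l = 0 → (∀ l ∈ Λ1, φ l = 0) ∧ ∀ j, b j = 0)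
    (hspan : ∀ z : E, ∃ (b : H × ℕ × N → ℝ) (Λ1 : Finset Λ) (φ : Λ → ℝ),
      Summable (fun j => b j • x j) ∧ z = ∑' j, b j • x j + ∑ l ∈ Λ1, φ l • y l) :
    Covers (DD x a y) ∧ UpDirected (DD x a y) ∧
    IsConditionalBasis (DD x a y) (xt x : _ → E × Bsp Λ) ∧
    ∀ f : (H × ℕ × N) ⊕ (Λ × ℕ) → E × Bsp Λ → ℝ,
      (∀ z, DSum (DD x a y) (xt x) (fun i => f i z) z) → ∃ i, ¬ Continuous (f i) := by
  have hA : ∀ (Λ0 : Finset Λ) (τ : Λ → E), Ach x a Λ0 τ := fun Λ0 τ =>
    Ach.all hlim (hdual Λ0) hdense τ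
  have hz : ∀ β : H × ℕ × N → ℝ, FConv x a y β → ∀ j, β j = 0 := fun β hβ =>
    zero_of_FConv ψ hψx hψu hlim hconn hdual hsum n0 hA hfree hβ
  have hdir := DD_directed (y := y) hA
  have huniq : ∀ (z : E × Bsp Λ) (α α' : (H × ℕ × N) ⊕ (Λ × ℕ) → ℝ),
      DSum (DD x a y) (xt x) α z → DSum (DD x a y) (xt x) α' z → α = α' := by
    intro z α α' h h'
    have h1 := h.add hdir (h'.smul (-1))
    have h2 : z + (-1 : ℝ) • z = 0 := by simp
    rw [h2] at h1
    funext i
    have := DSum_zero hA hz h1 i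
    linarith
  refine ⟨DD_covers hA, hdir, ?_, ?_⟩
  · intro z
    obtain ⟨α, hα⟩ := exists_DSum hA hspan z
    exact ⟨α, hα, fun α' hα' => huniq z α' α hα' hα⟩
  · intro f hf
    by_contra hcon
    push Not at hcon
    -- coefficients of the basis vectors
    have hb : ∀ i i', f i (xt x i') = if i = i' then 1 else 0 := by
      intro i i'
      have h1 : DSum (DD x a y) (xt x) (fun i => if i = i' then (1 : ℝ) else 0)
          (xt x i' : E × Bsp Λ) := by
        apply DSum.of_hasSum (DD_extend (y := y) hA)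
        have := hasSum_single (f := fun i => (if i = i' then (1 : ℝ) else 0) •
          (xt x i : E × Bsp Λ)) i' (fun b hb => by simp [hb])
        simpa using this
      exact congrFun (huniq _ _ _ (hf (xt x i')) h1) i
    have hzero : ∀ i, f i (u n0, 0) = 0 := by
      intro i
      have ht : Tendsto (fun k => (xt x (Sum.inl ((0 : H), k, n0)) : E × Bsp Λ)) atTop
          (𝓝 (u n0, 0)) := by
        have := (hlim 0 n0).prodMk_nhds (tendsto_const_nhds (x := (0 : Bsp Λ)))
        exact this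
      have h1 := ((hcon i).tendsto (u n0, 0)).comp ht
      have h2 : ∀ᶠ k in atTop, (f i ∘ fun k => (xt x (Sum.inl ((0 : H), k, n0)) : E × Bsp Λ)) k =
          0 := by
        match i with
        | Sum.inl j =>
          filter_upwards [eventually_notMem (0 : H) n0 {j}] with k hk
          simp only [Function.comp_apply]
          rw [hb]
          rw [Finset.mem_singleton] at hk
          rw [if_neg]
          intro hc
          exact hk (Sum.inl_injective hc).symm
        | Sum.inr c =>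
          refine Eventually.of_forall fun k => ?_
          simp only [Function.comp_apply]
          rw [hb]
          simp
      exact tendsto_nhds_unique h1 (tendsto_const_nhds.congr' (by
        filter_upwards [h2] with k hk
        exact hk.symm))
    have h3 := hf (u n0, 0)
    have h4 : (fun i => f i ((u n0, 0) : E × Bsp Λ)) = fun _ => 0 := funext hzero
    rw [h4] at h3
    have hu : 0 < ‖u n0‖ := by
      rw [norm_pos_iff]
      intro hc
      have := hψu n0
      rw [hc] at this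
      simp at this
    obtain ⟨d, hd, hd2⟩ := h3 ‖u n0‖ hu
    have h5 := hd2 d hd (Finset.Subset.refl _)
    simp at h5

end Abstract

/-! ### The concrete space -/

section Concrete

open Classical

/-- Positions. -/
abbrev P := ℕ × ℕ

/-- The Hilbert space `ℓ²(ℕ × ℕ)`. -/
abbrev A := lp (fun _ : P => ℝ) 2

/-- The main Banach space. -/
abbrev E1 := ℝ × A

/-- A second countable Hausdorff space into which `E1` injects. -/
abbrev X := ℝ × (P → ℝ)

/-- The countable family of sets. -/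
abbrev UU := ↥(TopologicalSpace.countableBasis X)

/-- The codes. -/
abbrev HH := UU →₀ ℚ

/-- The directions. -/
abbrev NN := P × Fin 3

instance : Countable UU := (TopologicalSpace.countable_countableBasis X).to_subtype

/-- The coordinates map. -/
def kap (z : E1) : X := (z.1, fun p => z.2 p)

theorem kap_injective : Function.Injective kap := by
  intro z z' h
  have h1 := congrArg Prod.fst h
  have h2 := congrArg Prod.snd h
  exact Prod.ext h1 (lp.ext h2)

theorem exists_code : ∃ c : HH × ℕ × NN → ℕ, Function.Injective c := exists_injective_nat _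

/-- An injective coding of the countable index set. -/
noncomputable def code : HH × ℕ × NN → ℕ := Classical.choose exists_code

theorem code_injective : Function.Injective code := Classical.choose_spec exists_code

/-- The `ℓ¹` norm of a code. -/
noncomputable def n1 (h : HH) : ℝ := ∑ U ∈ h.support, |((h U : ℚ) : ℝ)|

theorem n1_nonneg (h : HH) : 0 ≤ n1 h := Finset.sum_nonneg fun _ _ => abs_nonneg _

/-- The size of the perturbation. -/
noncomputable def tt (j : HH × ℕ × NN) : ℝ := (1 / 2) ^ (code j) / (1 + n1 j.1)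

theorem tt_pos (j : HH × ℕ × NN) : 0 < tt j := by
  have := n1_nonneg j.1
  unfold tt
  positivity

theorem tt_le (j : HH × ℕ × NN) : tt j ≤ (1 / 2) ^ (code j) := by
  have := n1_nonneg j.1
  unfold tt
  exact div_le_self (by positivity) (by linarith)

theorem n1_tt_le (j : HH × ℕ × NN) : n1 j.1 * tt j ≤ (1 / 2) ^ (code j) := by
  have h := n1_nonneg j.1
  unfold tt
  rw [mul_div_assoc']
  rw [div_le_iff₀ (by linarith)]
  have : (0 : ℝ) < (1 / 2) ^ (code j) := by positivity
  nlinarith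

/-- The unit vectors. -/
noncomputable def ee (p : P) : A := lp.single 2 p (1 : ℝ)

theorem norm_ee (p : P) : ‖ee p‖ = 1 := by
  unfold ee
  rw [lp.norm_single (by norm_num)]
  simp

theorem ee_apply (p q : P) : ee p q = if q = p then 1 else 0 := by
  unfold ee
  rw [lp.single_apply]
  by_cases h : q = p
  · subst h; simp
  · simp [h]

theorem summable_ww (m : ℕ) : Summable (fun i : ℕ => ((1 / 2 : ℝ) ^ i) • ee (m, i)) := by
  apply Summable.of_norm
  refine summable_geometric_two.congr ?_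
  intro i
  rw [norm_smul, norm_ee, mul_one, Real.norm_eq_abs, abs_of_nonneg (by positivity)]

/-- The perturbation directions. -/
noncomputable def ww (m : ℕ) : A := ∑' i : ℕ, ((1 / 2 : ℝ) ^ i) • ee (m, i)

theorem norm_ww (m : ℕ) : ‖ww m‖ ≤ 2 := by
  unfold ww
  apply tsum_of_norm_bounded (g := fun i : ℕ => (1 / 2 : ℝ) ^ i) hasSum_geometric_two
  intro i
  rw [norm_smul, norm_ee, mul_one, Real.norm_eq_abs, abs_of_nonneg (by positivity)]

theorem ww_apply (m m' i : ℕ) : ww m (m', i) = if m' = m then (1 / 2 : ℝ) ^ i else 0 := by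
  have h := ((lp.evalCLM ℝ (fun _ : P => ℝ) 2 (m', i)).hasSum (summable_ww m).hasSum)
  have h1 : (lp.evalCLM ℝ (fun _ : P => ℝ) 2 (m', i)) (∑' i : ℕ, ((1 / 2 : ℝ) ^ i) • ee (m, i)) =
    ww m (m', i) := rfl
  rw [h1] at h
  have h2 : HasSum (fun i' : ℕ => (lp.evalCLM ℝ (fun _ : P => ℝ) 2 (m', i))
      (((1 / 2 : ℝ) ^ i') • ee (m, i'))) (if m' = m then (1 / 2 : ℝ) ^ i else 0) := by
    have e : ∀ i' : ℕ, (lp.evalCLM ℝ (fun _ : P => ℝ) 2 (m', i))
        (((1 / 2 : ℝ) ^ i') • ee (m, i')) =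
        (1 / 2 : ℝ) ^ i' * (if (m', i) = (m, i') then 1 else 0) := by
      intro i'
      rw [map_smul]
      have : (lp.evalCLM ℝ (fun _ : P => ℝ) 2 (m', i)) (ee (m, i')) = ee (m, i') (m', i) := rfl
      rw [this, ee_apply, smul_eq_mul]
    simp only [e]
    have := hasSum_single (f := fun i' : ℕ => (1 / 2 : ℝ) ^ i' *
      (if (m', i) = (m, i') then (1 : ℝ) else 0)) i (by
        intro i' hi'
        rw [if_neg (by
          intro hc
          exact hi' (Prod.mk.inj hc).2.symm), mul_zero])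
    convert this using 1
    by_cases hm : m' = m <;> simp [hm]
  exact h.unique h2

/-- The limit vectors. -/
noncomputable def uu (n : NN) : E1 := (1, (((n.2 : ℕ) : ℝ) / 2 * (1 / 2) ^ n.1.2) • ee n.1)

/-- The basis vectors. -/
noncomputable def xx (j : HH × ℕ × NN) : E1 := uu j.2.2 + (0, tt j • ww (code j))

theorem xx_fst (j : HH × ℕ × NN) : (xx j).1 = 1 := by
  simp [xx, uu]

theorem norm_xx_sub (j : HH × ℕ × NN) : ‖xx j - uu j.2.2‖ ≤ 2 * tt j := by
  have h : xx j - uu j.2.2 = (0, tt j • ww (code j)) := by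
    unfold xx; abel
  rw [h, Prod.norm_mk, norm_zero, norm_smul, Real.norm_eq_abs, abs_of_pos (tt_pos j)]
  apply max_le
  · have := tt_pos j; linarith
  · have h1 := norm_ww (code j)
    have h2 := tt_pos j
    nlinarith

theorem xx_lim (h : HH) (n : NN) : Tendsto (fun k => xx (h, k, n)) atTop (𝓝 (uu n)) := by
  rw [tendsto_iff_norm_sub_tendsto_zero]
  have hinj : Function.Injective (fun k : ℕ => code (h, k, n)) := by
    intro k k' hk
    have := code_injective hk
    simpa using this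
  have ht : Tendsto (fun k : ℕ => 2 * (1 / 2 : ℝ) ^ (code (h, k, n))) atTop (𝓝 0) := by
    have h1 := (tendsto_pow_atTop_nhds_zero_of_lt_one (by norm_num : (0:ℝ) ≤ 1 / 2)
      (by norm_num)).comp hinj.nat_tendsto_atTop
    simpa using h1.const_mul 2
  refine squeeze_zero (fun k => norm_nonneg _) (fun k => ?_) ht
  have h1 := norm_xx_sub (h, k, n)
  have h2 := tt_le (h, k, n)
  simp only at h1
  linarith

theorem uu_zero (p : P) : uu (p, 0) = (1, 0) := by
  simp [uu]

theorem uu_dense : Dense (Submodule.span ℝ (Set.range uu) : Set E1) := by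
  have h10 : ((1, 0) : E1) ∈ Submodule.span ℝ (Set.range uu) := by
    rw [← uu_zero (0, 0)]
    exact Submodule.subset_span ⟨_, rfl⟩
  have hee : ∀ p : P, ((0, ee p) : E1) ∈ Submodule.span ℝ (Set.range uu) := by
    intro p
    have h1 : uu (p, 2) ∈ Submodule.span ℝ (Set.range uu) := Submodule.subset_span ⟨_, rfl⟩
    have h2 := Submodule.smul_mem _ ((2 : ℝ) ^ p.2) (Submodule.sub_mem _ h1 h10)
    convert h2 using 1
    rw [Prod.ext_iff]
    constructor
    · simp [uu]
    · simp only [uu, Prod.smul_snd, Prod.snd_sub, sub_zero, smul_smul]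
      have : (2 : ℝ) ^ p.2 * ((((2 : Fin 3) : ℕ) : ℝ) / 2 * (1 / 2) ^ p.2) = 1 := by
        have h3 : (((2 : Fin 3) : ℕ) : ℝ) = 2 := by norm_num
        rw [h3, div_self (by norm_num), one_mul, ← mul_pow]
        norm_num
      rw [this, one_smul]
  intro z
  have ht : Tendsto (fun s : Finset P => ((z.1, ∑ p ∈ s, lp.single 2 p (z.2 p)) : E1)) atTop
      (𝓝 z) :=
    (tendsto_const_nhds (x := z.1)).prodMk_nhds (lp.hasSum_single (by norm_num) z.2)
  refine mem_closure_of_tendsto ht (Eventually.of_forall fun s => ?_)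
  have e : ((z.1, ∑ p ∈ s, lp.single 2 p (z.2 p)) : E1) =
      z.1 • ((1, 0) : E1) + ∑ p ∈ s, z.2 p • ((0, ee p) : E1) := by
    rw [Prod.ext_iff]
    constructor
    · simp [Prod.fst_sum]
    · simp only [Prod.snd_add, Prod.smul_snd, smul_zero, zero_add, Prod.snd_sum]
      apply Finset.sum_congr rfl
      intro p _
      unfold ee
      rw [← lp.single_smul]
      simp
  simp only [SetLike.mem_coe]
  rw [e]
  exact Submodule.add_mem _ (Submodule.smul_mem _ _ h10)
    (Submodule.sum_mem _ fun p _ => Submodule.smul_mem _ _ (hee p))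

theorem uu_conn (c : NN → ℝ) (hc : ∀ (s : Finset NN) (m : NN → ℤ),
    ∑ n ∈ s, (m n : ℝ) • uu n = 0 → ∑ n ∈ s, ((m n : ℝ) * c n) • uu n = 0) :
    ∀ n n', c n = c n' := by
  -- different positions
  have h0 : ∀ p q : P, c (p, 0) = c (q, 0) := by
    intro p q
    by_cases hpq : p = q
    · rw [hpq]
    have hne : ((p, 0) : NN) ≠ (q, 0) := by
      intro h
      exact hpq (Prod.mk.inj h).1
    have h := hc {(p, 0), (q, 0)} (fun n => if n = (p, 0) then 1 else -1) (by
      rw [Finset.sum_pair hne, uu_zero, uu_zero]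
      simp [hne.symm])
    rw [Finset.sum_pair hne, uu_zero, uu_zero] at h
    have h1 := congrArg Prod.fst h
    simp [hne.symm] at h1
    linarith
  have h1 : ∀ p : P, c (p, 1) = c (p, 0) ∧ c (p, 2) = c (p, 0) := by
    intro p
    have h01 : ((p, 0) : NN) ∉ ({(p, 1), (p, 2)} : Finset NN) := by simp
    have h12 : ((p, 1) : NN) ≠ (p, 2) := by simp
    have hs2 : (((2 : Fin 3) : ℕ) : ℝ) = 2 := by norm_num
    have hs1 : (((1 : Fin 3) : ℕ) : ℝ) = 1 := by norm_num
    have h := hc {(p, 0), (p, 1), (p, 2)} (fun n => if n.2 = 1 then -2 else 1) (by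
      rw [Finset.sum_insert h01, Finset.sum_pair h12, Prod.ext_iff]
      constructor
      · simp [uu]
        norm_num
      · simp only [uu, Prod.snd_add, Prod.smul_snd, smul_smul, Prod.snd_zero, ← add_smul, hs1, hs2]
        simp)
    rw [Finset.sum_insert h01, Finset.sum_pair h12] at h
    have h2 := congrArg Prod.fst h
    have h3 := congrArg (fun z : E1 => z.2 p) h
    simp [uu] at h2
    simp only [uu, Prod.snd_add, Prod.smul_snd, smul_smul, Prod.snd_zero, ← add_smul, hs1, hs2]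
      at h3
    have h4 : ((ee p : A) : P → ℝ) p = 1 := by rw [ee_apply]; simp
    simp [h4] at h3
    have hr : ((2 : ℝ) ^ p.2)⁻¹ ≠ 0 := by positivity
    have h5 : c (p, 2) = c (p, 1) := by
      have : (c (p, 2) - c (p, 1)) * ((2 : ℝ) ^ p.2)⁻¹ = 0 := by
        rw [← h3]; ring
      rcases mul_eq_zero.1 this with h6 | h6
      · linarith
      · exact absurd h6 hr
    constructor <;> linarith
  have h2 : ∀ n : NN, c n = c ((0, 0), 0) := by
    rintro ⟨p, k⟩
    rw [← h0 p (0, 0)]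
    fin_cases k
    · rfl
    · exact (h1 p).1
    · exact (h1 p).2
  intro n n'
  rw [h2 n, h2 n']

/-- The coefficient functionals on codes attached to a vector. -/
noncomputable def av (v : E1) : HH →ₗ[ℚ] ℚ :=
  Finsupp.linearCombination ℚ (fun U : UU => if kap v ∈ U.1 then (1 : ℚ) else 0)

theorem av_le (v : E1) (h : HH) : |((av v h : ℚ) : ℝ)| ≤ n1 h := by
  unfold av n1
  rw [Finsupp.linearCombination_apply, Finsupp.sum]
  push_cast
  refine (Finset.abs_sum_le_sum_abs _ _).trans ?_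
  apply Finset.sum_le_sum
  intro U _
  split <;> simp

theorem av_dual (s : Finset E1) (v : E1) :
    ∃ h : HH, ∀ v' ∈ s, av v' h = if v' = v then 1 else 0 := by
  -- a basic open set isolating `kap v`
  have hopen : IsOpen ((kap '' ((s.erase v : Finset E1) : Set E1))ᶜ) :=
    ((s.erase v).finite_toSet.image kap).isClosed.isOpen_compl
  have hmem : kap v ∈ (kap '' ((s.erase v : Finset E1) : Set E1))ᶜ := by
    rintro ⟨v', hv', h⟩
    have := kap_injective h
    rw [this] at hv'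
    simp at hv'
  obtain ⟨U, hU, hvU, hsub⟩ :=
    (TopologicalSpace.isBasis_countableBasis X).exists_subset_of_mem_open hmem hopen
  refine ⟨Finsupp.single ⟨U, hU⟩ 1, ?_⟩
  intro v' hv'
  unfold av
  rw [Finsupp.linearCombination_single, one_smul]
  by_cases h : v' = v
  · rw [h]
    simp [hvU]
  · have h1 : kap v' ∉ U := by
      intro hc
      exact hsub hc ⟨v', by simp [h, hv'], rfl⟩
    simp [h, h1]

/-- The space of unconditional sums. -/
def WW : Submodule ℝ E1 where
  carrier := {z | ∃ b : HH × ℕ × NN → ℝ, Summable (fun j => b j • xx j) ∧ ∑' j, b j • xx j = z}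
  zero_mem' := ⟨fun _ => 0, by simp, by simp⟩
  add_mem' := by
    rintro z z' ⟨b, hb, rfl⟩ ⟨b', hb', rfl⟩
    refine ⟨fun j => b j + b' j, ?_, ?_⟩
    · simp only [add_smul]
      exact hb.add hb'
    · simp only [add_smul]
      exact hb.tsum_add hb'
  smul_mem' := by
    rintro c z ⟨b, hb, rfl⟩
    refine ⟨fun j => c * b j, ?_, ?_⟩
    · simp only [mul_smul]
      exact hb.const_smul c
    · simp only [mul_smul]
      exact hb.tsum_const_smul c

theorem xx_coord (j : HH × ℕ × NN) (m i : ℕ) : (xx j).2 (m, i) =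
    (1 / 2 : ℝ) ^ i * ((if j.2.2.1 = (m, i) then ((j.2.2.2 : ℕ) : ℝ) / 2 else 0) +
      (if code j = m then tt j else 0)) := by
  unfold xx uu
  simp only [Prod.snd_add, lp.coeFn_add, lp.coeFn_smul, Pi.add_apply, Pi.smul_apply, smul_eq_mul]
  rw [ee_apply, ww_apply]
  by_cases h1 : j.2.2.1 = (m, i)
  · by_cases h2 : code j = m
    · simp [h1, h2]; ring
    · simp [h1, h2, Ne.symm h2]; ring
  · by_cases h2 : code j = m
    · simp [h1, h2, Ne.symm h1]; ring
    · simp [h1, h2, Ne.symm h1, Ne.symm h2]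

theorem xx_free (b : HH × ℕ × NN → ℝ) (hb : Summable (fun j => b j • xx j))
    (h0 : ∑' j, b j • xx j = 0) : ∀ j, b j = 0 := by
  intro j0
  -- the coefficients are absolutely summable
  have hsum : HasSum (fun j => b j • xx j) 0 := by
    rw [← h0]; exact hb.hasSum
  have hb1 : Summable b := by
    have h1 := (hsum.map (AddMonoidHom.fst ℝ A) continuous_fst).summable
    refine h1.congr ?_
    intro j
    simp [xx_fst]
  have hb2 : Summable (fun j => |b j|) := hb1.abs
  by_contra hne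
  have hpos : 0 < |b j0 * tt j0| := abs_pos.2 (mul_ne_zero hne (tt_pos j0).ne')
  obtain ⟨s, hs⟩ := summable_iff_vanishing_norm.1 hb2 (|b j0 * tt j0| / 2) (by linarith)
  -- choose a coordinate in the row of `j0` not used by `s`
  obtain ⟨i, hi⟩ : ∃ i : ℕ, ∀ j ∈ s, j.2.2.1 ≠ (code j0, i) := by
    obtain ⟨i, hi⟩ := Infinite.exists_notMem_finset (s.image (fun j => j.2.2.1.2))
    refine ⟨i, ?_⟩
    intro j hj hc
    apply hi
    rw [Finset.mem_image]
    exact ⟨j, hj, by rw [hc]⟩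
  have h1 := (lp.evalCLM ℝ (fun _ : P => ℝ) 2 (code j0, i)).hasSum
    (hsum.map (AddMonoidHom.snd ℝ A) continuous_snd)
  have h2 : HasSum (fun j => b j * ((1 / 2 : ℝ) ^ i *
      ((if j.2.2.1 = (code j0, i) then ((j.2.2.2 : ℕ) : ℝ) / 2 else 0) +
      (if code j = code j0 then tt j else 0)))) 0 := by
    have h3 : (fun j => b j * ((1 / 2 : ℝ) ^ i *
      ((if j.2.2.1 = (code j0, i) then ((j.2.2.2 : ℕ) : ℝ) / 2 else 0) +
      (if code j = code j0 then tt j else 0)))) = fun j =>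
        (lp.evalCLM ℝ (fun _ : P => ℝ) 2 (code j0, i))
          (((AddMonoidHom.snd ℝ A) ∘ fun j => b j • xx j) j) := by
      funext j
      rw [← xx_coord]
      rfl
    rw [h3]
    simpa using h1
  have h3 : HasSum (fun j => b j *
      ((if j.2.2.1 = (code j0, i) then ((j.2.2.2 : ℕ) : ℝ) / 2 else 0) +
      (if code j = code j0 then tt j else 0))) 0 := by
    have h4 := h2.mul_left ((2 : ℝ) ^ i)
    rw [mul_zero] at h4
    have h5 : (2 : ℝ) ^ i * (1 / 2) ^ i = 1 := by
      rw [← mul_pow]; norm_num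
    have h6 : (fun j => b j *
      ((if j.2.2.1 = (code j0, i) then ((j.2.2.2 : ℕ) : ℝ) / 2 else 0) +
      (if code j = code j0 then tt j else 0))) = (fun j => (2 : ℝ) ^ i * (b j * ((1 / 2 : ℝ) ^ i *
      ((if j.2.2.1 = (code j0, i) then ((j.2.2.2 : ℕ) : ℝ) / 2 else 0) +
      (if code j = code j0 then tt j else 0))))) := by
      funext j
      calc _ = ((2 : ℝ) ^ i * (1 / 2) ^ i) * (b j *
        ((if j.2.2.1 = (code j0, i) then ((j.2.2.2 : ℕ) : ℝ) / 2 else 0) +
        (if code j = code j0 then tt j else 0))) := by rw [h5, one_mul]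
        _ = _ := by ring
    rw [h6]
    exact h4
  have h4 : HasSum (fun j => b j * (if code j = code j0 then tt j else 0)) (b j0 * tt j0) := by
    have := hasSum_single (f := fun j => b j * (if code j = code j0 then tt j else 0)) j0 (by
      intro j hj
      rw [if_neg (fun hc => hj (code_injective hc)), mul_zero])
    simpa using this
  have h5 : HasSum (fun j => b j *
      (if j.2.2.1 = (code j0, i) then ((j.2.2.2 : ℕ) : ℝ) / 2 else 0)) (0 - b j0 * tt j0) := by
    have := h3.sub h4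
    have h6 : (fun j => b j *
      (if j.2.2.1 = (code j0, i) then ((j.2.2.2 : ℕ) : ℝ) / 2 else 0)) = (fun j => b j *
      ((if j.2.2.1 = (code j0, i) then ((j.2.2.2 : ℕ) : ℝ) / 2 else 0) +
      (if code j = code j0 then tt j else 0)) - b j * (if code j = code j0 then tt j else 0)) := by
      funext j
      ring
    rw [h6]
    exact this
  have h6 : |0 - b j0 * tt j0| ≤ |b j0 * tt j0| / 2 := by
    have ht := (continuous_abs.tendsto _).comp h5
    refine le_of_tendsto' ht ?_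
    intro t
    simp only [Function.comp_apply]
    have h7 : ∑ j ∈ t, b j * (if j.2.2.1 = (code j0, i) then ((j.2.2.2 : ℕ) : ℝ) / 2 else 0) =
        ∑ j ∈ t \ s, b j * (if j.2.2.1 = (code j0, i) then ((j.2.2.2 : ℕ) : ℝ) / 2 else 0) := by
      symm
      apply Finset.sum_subset Finset.sdiff_subset
      intro j hj hj2
      have hjs : j ∈ s := by
        by_contra hc
        exact hj2 (Finset.mem_sdiff.2 ⟨hj, hc⟩)
      rw [if_neg (hi j hjs), mul_zero]
    rw [h7]
    have h8 := hs (t \ s) Finset.sdiff_disjoint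
    rw [Real.norm_eq_abs, abs_of_nonneg (Finset.sum_nonneg fun _ _ => abs_nonneg _)] at h8
    refine le_trans ?_ h8.le
    refine (Finset.abs_sum_le_sum_abs _ _).trans ?_
    apply Finset.sum_le_sum
    intro j _
    rw [abs_mul]
    have h9 : |(if j.2.2.1 = (code j0, i) then ((j.2.2.2 : ℕ) : ℝ) / 2 else 0)| ≤ 1 := by
      split
      · have h10 : ((j.2.2.2 : ℕ) : ℝ) ≤ 2 := by
          have := j.2.2.2.isLt
          have h11 : (j.2.2.2 : ℕ) ≤ 2 := by omega
          exact_mod_cast h11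
        rw [abs_of_nonneg (by positivity)]
        linarith
      · simp
    calc _ ≤ |b j| * 1 := by gcongr
      _ = |b j| := mul_one _
  rw [zero_sub, abs_neg] at h6
  linarith

/-- **Negative answer to the question of Fremlin.** There are an index set `I`, a family `D` of
finite subsets of `I` which covers `I` and is directed upwards, a Banach space `E` and an
`(I, D)`-conditional basis of `E` with a discontinuous coefficient functional. -/
theorem result : ∃ (I : Type) (D : Set (Finset I)) (E : Type) (_ : NormedAddCommGroup E)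
    (_ : NormedSpace ℝ E) (_ : CompleteSpace E) (x : I → E),
    Covers D ∧ UpDirected D ∧ IsConditionalBasis D x ∧
    ∃ f : I → E → ℝ, (∀ z, DSum D x (fun i => f i z) z) ∧ ∃ i, ¬ Continuous (f i) := by
  obtain ⟨W', hW'⟩ := WW.exists_isCompl
  let bs := Module.Basis.ofVectorSpace ℝ W'
  let y : Module.Basis.ofVectorSpaceIndex ℝ W' → E1 := fun l => (bs l : E1)
  have hyinj : Function.Injective y := fun l l' h => bs.injective (Subtype.ext h)
  let a : Module.Basis.ofVectorSpaceIndex ℝ W' → HH →ₗ[ℚ] ℚ := fun l => av (y l)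
  have hmain := abstract_main (x := xx) (u := uu) (a := a) (y := y)
    (ContinuousLinearMap.fst ℝ ℝ A) (fun j => xx_fst j) (fun n => by simp [uu]) xx_lim uu_conn
    (by
      intro Λ0 l0 _
      obtain ⟨h, hh⟩ := av_dual (Λ0.image y) (y l0)
      refine ⟨h, ?_⟩
      intro l hl
      have := hh (y l) (Finset.mem_image_of_mem y hl)
      change av (y l) h = _
      rw [this]
      by_cases hl0 : l = l0
      · simp [hl0]
      · rw [if_neg (fun hc => hl0 (hyinj hc)), if_neg hl0])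
    (by
      intro l
      have hg : Summable (fun j : HH × ℕ × NN => 2 * (1 / 2 : ℝ) ^ (code j)) :=
        (summable_geometric_two.comp_injective code_injective).mul_left 2
      apply Summable.of_nonneg_of_le (fun j => by positivity) _ hg
      intro j
      have h1 : |ca a l j| ≤ n1 j.1 := av_le (y l) j.1
      have h2 := norm_xx_sub j
      have h3 := n1_tt_le j
      have h4 := tt_pos j
      calc |ca a l j| * ‖xx j - uu j.2.2‖ ≤ n1 j.1 * (2 * tt j) := by
            gcongr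
            exact n1_nonneg _
        _ ≤ 2 * (1 / 2 : ℝ) ^ (code j) := by linarith)
    uu_dense ((0, 0), 0)
    (by
      intro Λ1 φ b hb h0
      have hw : ∑' j, b j • xx j ∈ WW := ⟨b, hb, rfl⟩
      have hw' : ∑ l ∈ Λ1, φ l • y l ∈ W' :=
        Submodule.sum_mem _ fun l _ => Submodule.smul_mem _ _ (bs l).2
      have h1 : ∑ l ∈ Λ1, φ l • y l ∈ WW := by
        have : ∑ l ∈ Λ1, φ l • y l = - ∑' j, b j • xx j := by
          rw [eq_neg_iff_add_eq_zero, add_comm]; exact h0
        rw [this]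
        exact Submodule.neg_mem _ hw
      have h2 : ∑ l ∈ Λ1, φ l • y l = 0 := by
        have := hW'.disjoint.le_bot (x := ∑ l ∈ Λ1, φ l • y l) ⟨h1, hw'⟩
        simpa using this
      refine ⟨?_, ?_⟩
      · have hli := bs.linearIndependent
        rw [linearIndependent_iff'] at hli
        apply hli Λ1 φ
        apply Subtype.ext
        simpa [y] using h2
      · rw [h2, add_zero] at h0
        exact xx_free b hb h0)
    (by
      intro z
      obtain ⟨w, hw, w', hw', hz⟩ := Submodule.mem_sup.1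
        (hW'.sup_eq_top ▸ (Submodule.mem_top : z ∈ (⊤ : Submodule ℝ E1)))
      obtain ⟨b, hb, hbw⟩ := hw
      refine ⟨b, (bs.repr ⟨w', hw'⟩).support, bs.repr ⟨w', hw'⟩, hb, ?_⟩
      rw [hbw, ← hz]
      congr 1
      have h1 := bs.linearCombination_repr ⟨w', hw'⟩
      have h2 := congrArg Subtype.val h1
      rw [Finsupp.linearCombination_apply, Finsupp.sum] at h2
      simp only at h2
      refine h2.symm.trans ?_
      simp [y])
  obtain ⟨h1, h2, h3, h4⟩ := hmain
  refine ⟨_, DD xx a y, E1 × Bsp _, inferInstance, inferInstance, inferInstance, xt xx,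
    h1, h2, h3, ?_⟩
  choose f hf _ using h3
  exact ⟨fun i z => f z i, hf, h4 _ hf⟩

end Concrete

end Pool.Agent.Results.MP_e67678_an.DiscontinuousCoefficient
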